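import Mathlib
import Pool.Agent.Y659.MPS.Stm

/-!
The equalities in the count of dimensions for a generic unit `X`.
-/

namespace Pool.Agent.Y702.MPS

open Matrix
open Pool.Agent.Results.MP_8bfff4_mp.ExactValue
open Pool.Agent.Y659.MPS

variable {D : ℕ}

lemma rk_null {E : Type*} [AddCommGroup E] [Module ℂ E]
    (f : Matrix (Fin D) (Fin D) ℂ →ₗ[ℂ] E) (B : Submodule ℂ (Matrix (Fin D) (Fin D) ℂ)) :
    Module.finrank ℂ (B.map f) + fr (B ⊓ LinearMap.ker f) = fr B := by
  have h1 := LinearMap.finrank_range_add_finrank_ker (f.domRestrict B)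
  have h2 : LinearMap.range (f.domRestrict B) = B.map f := LinearMap.range_domRestrict B f
  rw [h2] at h1
  have h3 : Module.finrank ℂ (LinearMap.ker (f.domRestrict B)) = fr (B ⊓ LinearMap.ker f) := by
    have h4 : (LinearMap.ker (f.domRestrict B)).map B.subtype = B ⊓ LinearMap.ker f := by
      ext x
      simp only [Submodule.mem_map, LinearMap.mem_ker, Submodule.mem_inf]
      constructor
      · rintro ⟨y, hy, rfl⟩
        exact ⟨y.2, hy⟩
      · rintro ⟨hx, hx'⟩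
        exact ⟨⟨x, hx⟩, hx', rfl⟩
    rw [← h4]
    unfold fr
    exact (Submodule.finrank_map_subtype_eq B _).symm
  unfold fr at *
  omega

lemma rk_null_mk (R B : Submodule ℂ (Matrix (Fin D) (Fin D) ℂ)) :
    Module.finrank ℂ (B.map R.mkQ) + fr (B ⊓ R) = fr B := by
  have := rk_null R.mkQ B
  rwa [Submodule.ker_mkQ] at this

variable {W : Submodule ℂ (Matrix (Fin D) (Fin D) ℂ)}

/-- `A_n = X W^n + [X, W^n]` -/
lemma A_eq (X : Matrix (Fin D) (Fin D) ℂ) (n : ℕ) :
    ln X * W ^ n ⊔ W ^ n * ln X = ln X * W ^ n ⊔ (W ^ n).map (adL X) := by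
  apply le_antisymm
  · apply sup_le le_sup_left
    intro z hz
    rw [mem_mul_ln] at hz
    obtain ⟨w, hw, rfl⟩ := hz
    have h1 : w * X = X * w + adL X w := by rw [adL_apply]; abel
    rw [h1]
    apply Submodule.add_mem
    · exact Submodule.mem_sup_left (mem_ln_mul.2 ⟨w, hw, rfl⟩)
    · exact Submodule.mem_sup_right (Submodule.mem_map_of_mem hw)
  · apply sup_le le_sup_left
    rintro _ ⟨w, hw, rfl⟩
    rw [adL_apply]
    apply Submodule.sub_mem
    · exact Submodule.mem_sup_right (mem_mul_ln.2 ⟨w, hw, rfl⟩)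
    · exact Submodule.mem_sup_left (mem_ln_mul.2 ⟨w, hw, rfl⟩)

lemma map_le_range (X : Matrix (Fin D) (Fin D) ℂ) (U : Submodule ℂ (Matrix (Fin D) (Fin D) ℂ)) :
    U.map (adL X) ≤ LinearMap.range (adL X) := LinearMap.map_le_range

lemma A_map (X : Matrix (Fin D) (Fin D) ℂ) (n : ℕ) :
    (ln X * W ^ n ⊔ W ^ n * ln X).map (LinearMap.range (adL X)).mkQ =
      (ln X * W ^ n).map (LinearMap.range (adL X)).mkQ := by
  rw [A_eq, Submodule.map_sup]
  have h : ((W ^ n).map (adL X)).map (LinearMap.range (adL X)).mkQ = ⊥ := by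
    rw [eq_bot_iff, Submodule.map_le_iff_le_comap]
    intro x hx
    rw [Submodule.mem_comap, Submodule.mem_bot, Submodule.mkQ_apply,
      Submodule.Quotient.mk_eq_zero]
    exact map_le_range X _ hx
  rw [h, sup_bot_eq]

/-- `R` is stable by `X` and by its inverse -/
lemma ln_inf (X : Matrix (Fin D) (Fin D) ℂ) (hX : IsUnit X)
    (U : Submodule ℂ (Matrix (Fin D) (Fin D) ℂ)) :
    (ln X * U) ⊓ LinearMap.range (adL X) = ln X * (U ⊓ LinearMap.range (adL X)) := by
  obtain ⟨u, rfl⟩ := hX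
  set X : Matrix (Fin D) (Fin D) ℂ := (u : Matrix (Fin D) (Fin D) ℂ) with hXdef
  set Xi : Matrix (Fin D) (Fin D) ℂ := ((u⁻¹ : (Matrix (Fin D) (Fin D) ℂ)ˣ) : Matrix (Fin D) (Fin D) ℂ) with hXi
  have hXX : Xi * X = 1 := Units.inv_mul u
  have hXX' : X * Xi = 1 := Units.mul_inv u
  ext z
  rw [Submodule.mem_inf, mem_ln_mul, mem_ln_mul]
  constructor
  · rintro ⟨⟨w, hw, rfl⟩, ⟨C, hC⟩⟩
    refine ⟨w, ⟨hw, Xi * C, ?_⟩, rfl⟩
    rw [adL_apply] at hC ⊢
    calc Xi * C * X - X * (Xi * C) = Xi * (C * X - X * C) + (Xi * X) * C - (X * Xi) * C := by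
          noncomm_ring
      _ = Xi * (X * w) + C - C := by rw [hC, hXX, hXX', one_mul]
      _ = w := by rw [add_sub_cancel_right, ← mul_assoc, hXX, one_mul]
  · rintro ⟨w, ⟨hw, ⟨C, hC⟩⟩, rfl⟩
    refine ⟨⟨w, hw, rfl⟩, X * C, ?_⟩
    rw [adL_apply] at hC ⊢
    rw [← hC]
    noncomm_ring

lemma count (X : Matrix (Fin D) (Fin D) ℂ) (hX : IsUnit X) (n : ℕ) :
    fr ((ln X * W ^ n ⊔ W ^ n * ln X) ⊓ LinearMap.range (adL X)) + fr (W ^ n) =
      fr (ln X * W ^ n ⊔ W ^ n * ln X) + fr (W ^ n ⊓ LinearMap.range (adL X)) := by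
  have h1 := rk_null_mk (LinearMap.range (adL X)) (ln X * W ^ n ⊔ W ^ n * ln X)
  have h2 := rk_null_mk (LinearMap.range (adL X)) (ln X * W ^ n)
  rw [A_map] at h1
  rw [ln_inf X hX, fr_ln_mul hX, fr_ln_mul hX] at h2
  omega

theorem EQ : St_EQ := by
  intro D W X h
  obtain ⟨hD, hX, hXu, htop, hmin, hgood⟩ := h
  set R := LinearMap.range (adL X) with hR
  have hDD : D * D ≥ D := by nlinarith
  set K := D * D - D + 1 with hK
  have hle : ∀ n, ln X * W ^ n ⊔ W ^ n * ln X ≤ W ^ (n + 1) := by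
    intro n
    apply sup_le
    · rw [pow_succ']; exact mul_le_mul' (ln_le.2 hX) le_rfl
    · rw [pow_succ]; exact mul_le_mul' le_rfl (ln_le.2 hX)
  have hleR : ∀ n, (ln X * W ^ n ⊔ W ^ n * ln X) ⊓ R ≤ W ^ (n + 1) ⊓ R := fun n =>
    inf_le_inf_right _ (hle n)
  have hc : ∀ n, fr ((ln X * W ^ n ⊔ W ^ n * ln X) ⊓ R) + fr (W ^ n) =
      fr (ln X * W ^ n ⊔ W ^ n * ln X) + fr (W ^ n ⊓ R) := fun n => count X hXu n
  have hstep : ∀ n, 1 ≤ n → n < K → fr (W ^ n ⊓ R) + 1 ≤ fr (W ^ (n + 1) ⊓ R) := by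
    intro n h1 h2
    have h3 := hgood n h1 h2
    have h4 := hc n
    have h5 := fr_mono (hleR n)
    omega
  have hstep' : ∀ n, fr (W ^ n ⊓ R) ≤ fr (W ^ (n + 1) ⊓ R) := by
    intro n
    have h4 := hc n
    have h5 := fr_mono (hleR n)
    have h6 : fr (W ^ n) ≤ fr (ln X * W ^ n ⊔ W ^ n * ln X) := by
      calc fr (W ^ n) = fr (ln X * W ^ n) := (fr_ln_mul hXu).symm
        _ ≤ _ := fr_mono le_sup_left
    omega
  -- growth from `m` to `n`
  have hgr : ∀ m, 1 ≤ m → ∀ n, m ≤ n → n ≤ K → fr (W ^ m ⊓ R) + (n - m) ≤ fr (W ^ n ⊓ R) := by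
    intro m hm n hn
    induction n, hn using Nat.le_induction with
    | base => intro _; simp
    | succ n hn ih =>
      intro h2
      have h3 := ih (by omega)
      have h4 := hstep n (by omega) (by omega)
      omega
  have hlast : fr (W ^ (K + 1) ⊓ R) + D ≤ D * D := by
    have h1 : fr R + D ≤ D * D := fr_range_ad X
    have h2 : fr (W ^ (K + 1) ⊓ R) ≤ fr R := fr_mono inf_le_right
    omega
  have hlast2 : fr (W ^ K ⊓ R) ≤ K - 1 := by
    have := hstep' K
    omega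
  have hr : ∀ n, 1 ≤ n → n ≤ K → fr (W ^ n ⊓ R) = n - 1 := by
    intro n h1 h2
    have h3 := hgr n h1 K h2 le_rfl
    have h4 := hgr 1 le_rfl n h1 h2
    omega
  have hA : ∀ n, 1 ≤ n → n < K → fr (ln X * W ^ n ⊔ W ^ n * ln X) = fr (W ^ n) + 1 := by
    intro n h1 h2
    have h3 := hgood n h1 h2
    have h4 := hc n
    have h5 := fr_mono (hleR n)
    have h6 := hr n h1 h2.le
    have h7 := hr (n + 1) (by omega) (by omega)
    omega
  have hAR : ∀ n, 1 ≤ n → n < K → (ln X * W ^ n ⊔ W ^ n * ln X) ⊓ R = W ^ (n + 1) ⊓ R := by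
    intro n h1 h2
    apply eq_of_le_of_fr_le (hleR n)
    have h4 := hc n
    have h5 := hA n h1 h2
    have h6 := hr n h1 h2.le
    have h7 := hr (n + 1) (by omega) (by omega)
    omega
  have hmod : ∀ n, (ln X * W ^ n ⊔ W ^ n * ln X) ⊓ R =
      ln X * (W ^ n ⊓ R) ⊔ (W ^ n).map (adL X) := by
    intro n
    rw [A_eq, ← ln_inf X hXu, sup_comm, sup_inf_assoc_of_le _ (map_le_range X _), sup_comm]
  have hmain : ∀ n, 1 ≤ n → n < K → W ^ (n + 1) ⊓ R = (W ^ n).map (adL X) := by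
    intro n hn
    induction n, hn using Nat.le_induction with
    | base =>
      intro h2
      rw [← hAR 1 le_rfl h2, hmod]
      have h3 := hr 1 le_rfl h2.le
      have h4 : W ^ 1 ⊓ R = ⊥ := by
        apply Submodule.finrank_eq_zero.1
        unfold fr at h3
        simpa using h3
      rw [h4, Submodule.mul_bot, bot_sup_eq]
    | succ n hn ih =>
      intro h2
      have h3 := ih (by omega)
      rw [← hAR (n + 1) (by omega) h2, hmod, h3]
      apply le_antisymm
      · apply sup_le _ le_rfl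
        intro z hz
        rw [mem_ln_mul] at hz
        obtain ⟨_, ⟨w, hw, rfl⟩, rfl⟩ := hz
        refine ⟨X * w, ?_, ?_⟩
        · rw [pow_succ']
          exact Submodule.mul_mem_mul hX hw
        · rw [adL_apply, adL_apply]
          noncomm_ring
      · exact le_sup_right
  intro n h1 h2
  refine ⟨hA n h1 h2, ?_⟩
  have h3 := rk_null (adL X) (W ^ n)
  have h4 : Module.finrank ℂ ((W ^ n).map (adL X)) = n := by
    rw [← hmain n h1 h2]
    have := hr (n + 1) (by omega) (by omega)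
    unfold fr at this
    rw [this]
    omega
  omega

end Pool.Agent.Y702.MPS
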